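import Pool.Agent.H12.KG.Targets

/-!
# Project KEW, block G, row QGR: the quotient grading is a grading (helper30)
-/

namespace Pool.Agent.H30.KG

open AlgebraicGeometry CategoryTheory Pool.Agent.H12.KP Pool.Agent.H12.KG

universe u

section Q

variable {A S : Type u} [CommRing A] [CommRing S] [Algebra A S] (𝒮 : ℕ → Submodule A S)
  (w : Ideal S)

/-- The map `𝒮 n → qgr 𝒮 w n`. -/
noncomputable def qmap (n : ℕ) : 𝒮 n →+ qgr 𝒮 w n :=
  ((Ideal.Quotient.mkₐ A w).toLinearMap.submoduleMap (𝒮 n)).toAddMonoidHom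

theorem qmap_coe (n : ℕ) (x : 𝒮 n) : ((qmap 𝒮 w n x : qgr 𝒮 w n) : S ⧸ w) =
    Ideal.Quotient.mk w (x : S) := rfl

theorem qmap_surj (n : ℕ) : Function.Surjective (qmap 𝒮 w n) :=
  LinearMap.submoduleMap_surjective _ _

variable [GradedAlgebra 𝒮]

theorem qnat (y : DirectSum ℕ fun n => 𝒮 n) :
    DirectSum.coeAddMonoidHom (qgr 𝒮 w) (DirectSum.map (qmap 𝒮 w) y) =
      Ideal.Quotient.mk w (DirectSum.coeAddMonoidHom 𝒮 y) := by
  induction y using DirectSum.induction_on with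
  | zero => simp only [map_zero]
  | of i x => rw [DirectSum.map_of, DirectSum.coeAddMonoidHom_of, DirectSum.coeAddMonoidHom_of,
      qmap_coe]
  | add x y hx hy => rw [map_add, map_add, map_add, map_add, hx, hy]

theorem q_internal (hw : w.IsHomogeneous 𝒮) : DirectSum.IsInternal (qgr 𝒮 w) := by
  constructor
  · rw [injective_iff_map_eq_zero]
    intro x hx
    obtain ⟨y, rfl⟩ : ∃ y, DirectSum.map (qmap 𝒮 w) y = x :=
      (DirectSum.map_surjective _).2 (qmap_surj 𝒮 w) x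
    rw [qnat, Ideal.Quotient.eq_zero_iff_mem] at hx
    refine DFinsupp.ext fun n => Subtype.ext ?_
    have h1 := hw n hx
    have h2 : DirectSum.decompose 𝒮 (DirectSum.coeAddMonoidHom 𝒮 y) = y :=
      DirectSum.Decomposition.right_inv y
    rw [h2] at h1
    rw [DirectSum.map_apply, qmap_coe, Ideal.Quotient.eq_zero_iff_mem.2 h1]
    rfl
  · intro t
    obtain ⟨s, rfl⟩ := Ideal.Quotient.mk_surjective t
    refine ⟨DirectSum.map (qmap 𝒮 w) (DirectSum.decompose 𝒮 s), ?_⟩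
    rw [qnat]
    congr 1
    exact DirectSum.Decomposition.left_inv s

omit [GradedAlgebra 𝒮] in
theorem qgr_mem (n : ℕ) (x : S) (hx : x ∈ 𝒮 n) : Ideal.Quotient.mk w x ∈ qgr 𝒮 w n :=
  ⟨x, hx, rfl⟩

theorem qgr_monoid : SetLike.GradedMonoid (qgr 𝒮 w) where
  one_mem := by
    have h := qgr_mem 𝒮 w 0 1 (SetLike.one_mem_graded 𝒮)
    rwa [map_one] at h
  mul_mem := by
    rintro i j _ _ ⟨a, ha, rfl⟩ ⟨b, hb, rfl⟩
    have h := qgr_mem 𝒮 w (i + j) (a * b) (SetLike.mul_mem_graded ha hb)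
    rwa [map_mul] at h

theorem pf_QGR : S_QGR.{u} := by
  intro A S _ _ _ 𝒮 _ w hw
  exact ⟨{ qgr_monoid 𝒮 w, (q_internal 𝒮 w hw).chooseDecomposition (qgr 𝒮 w) with }⟩

end Q

end Pool.Agent.H30.KG
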