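import Pool.Agent.H30.KG.STKC

/-!
# Project KEW, block G, row STK: stalks and residue fields of Proj (helper30)
-/

namespace Pool.Agent.H30.KG

open AlgebraicGeometry CategoryTheory Pool.Agent.H12.KP Pool.Agent.H12.KG

universe u

section Frac

variable {A S : Type u} [CommRing A] [CommRing S] [Algebra A S] (𝒮 : ℕ → Submodule A S)
  [GradedAlgebra 𝒮] (w : Proj 𝒮) (L : Type u) [Field L] [Algebra (S ⧸ idl 𝒮 w) L]
  [IsFractionRing (S ⧸ idl 𝒮 w) L]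

instance idl_prime : (idl 𝒮 w).IsPrime :=
  (show ProjectiveSpectrum 𝒮 from w).isPrime

/-- The map from `S` to the field. -/
noncomputable def sL : S →+* L :=
  (algebraMap (S ⧸ idl 𝒮 w) L).comp (Ideal.Quotient.mk (idl 𝒮 w))

theorem sL_ne {b : S} (hb : b ∉ idl 𝒮 w) : sL 𝒮 w L b ≠ 0 := by
  intro h
  apply hb
  rw [← Ideal.Quotient.eq_zero_iff_mem]
  exact (IsFractionRing.injective (S ⧸ idl 𝒮 w) L) (h.trans (map_zero _).symm)

omit [IsFractionRing (S ⧸ idl 𝒮 w) L] in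
theorem sL_zero {b : S} (hb : b ∈ idl 𝒮 w) : sL 𝒮 w L b = 0 := by
  show algebraMap (S ⧸ idl 𝒮 w) L (Ideal.Quotient.mk (idl 𝒮 w) b) = 0
  rw [Ideal.Quotient.eq_zero_iff_mem.2 hb, map_zero]

/-- The map from the homogeneous localization to the field. -/
noncomputable def psi : HomogeneousLocalization.AtPrime 𝒮 (idl 𝒮 w) →+* L :=
  (IsLocalization.lift (M := (idl 𝒮 w).primeCompl) (S := Localization (idl 𝒮 w).primeCompl)
    (g := sL 𝒮 w L) (fun y => (sL_ne 𝒮 w L y.2).isUnit)).comp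
    (algebraMap (HomogeneousLocalization 𝒮 (idl 𝒮 w).primeCompl)
      (Localization (idl 𝒮 w).primeCompl))

theorem psi_mk (f : HomogeneousLocalization.NumDenSameDeg 𝒮 (idl 𝒮 w).primeCompl) :
    psi 𝒮 w L (HomogeneousLocalization.mk f) * sL 𝒮 w L (f.den : S) = sL 𝒮 w L (f.num : S) := by
  have h : algebraMap (HomogeneousLocalization 𝒮 (idl 𝒮 w).primeCompl)
      (Localization (idl 𝒮 w).primeCompl) (HomogeneousLocalization.mk f) =
      IsLocalization.mk' _ (f.num : S) (⟨f.den, f.den_mem⟩ : (idl 𝒮 w).primeCompl) := by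
    rw [← Localization.mk_eq_mk']
    rfl
  show IsLocalization.lift _ (algebraMap (HomogeneousLocalization 𝒮 (idl 𝒮 w).primeCompl)
      (Localization (idl 𝒮 w).primeCompl) (HomogeneousLocalization.mk f)) * _ = _
  rw [h, mul_comm]
  exact ((IsLocalization.lift_mk'_spec (hg := fun y => (sL_ne 𝒮 w L y.2).isUnit)
    (f.num : S) _ (⟨f.den, f.den_mem⟩ : (idl 𝒮 w).primeCompl)).1 rfl).symm

theorem psi_local (z : HomogeneousLocalization.AtPrime 𝒮 (idl 𝒮 w)) (hz : psi 𝒮 w L z ≠ 0) :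
    IsUnit z := by
  obtain ⟨f, rfl⟩ := HomogeneousLocalization.mk_surjective z
  have h1 : (f.num : S) ∉ idl 𝒮 w := by
    intro h
    have h2 := psi_mk 𝒮 w L f
    rw [sL_zero 𝒮 w L h] at h2
    rcases mul_eq_zero.1 h2 with h3 | h3
    · exact hz h3
    · exact sL_ne 𝒮 w L f.den_mem h3
  rw [← HomogeneousLocalization.isUnit_iff_isUnit_val, HomogeneousLocalization.val_mk]
  rw [Localization.mk_eq_mk']
  rw [IsLocalization.AtPrime.isUnit_mk'_iff (Localization.AtPrime (idl 𝒮 w)) (idl 𝒮 w)]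
  exact h1

/-- The map from the stalk to the field. -/
noncomputable def phi : (Proj 𝒮).presheaf.stalk w →+* L :=
  (psi 𝒮 w L).comp (Proj.stalkIso 𝒮 w).hom.hom

theorem phi_local : IsLocalHom (phi 𝒮 w L) := by
  constructor
  intro z hz
  have h1 : IsUnit ((Proj.stalkIso 𝒮 w).hom.hom z) := psi_local 𝒮 w L _ hz.ne_zero
  have h2 := h1.map (Proj.stalkIso 𝒮 w).inv.hom
  have h3 : (Proj.stalkIso 𝒮 w).inv.hom ((Proj.stalkIso 𝒮 w).hom.hom z) = z := by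
    have h4 := congrArg (fun t => t.hom z) (Proj.stalkIso 𝒮 w).hom_inv_id
    exact h4
  rwa [h3] at h2

theorem phi_germ (U : (Proj 𝒮).Opens) (hw : w ∈ U) (s : Γ(Proj 𝒮, U)) :
    phi 𝒮 w L ((Proj 𝒮).presheaf.germ U w hw s) =
      psi 𝒮 w L ((show (ProjectiveSpectrum.Proj.structureSheaf 𝒮).1.obj (Opposite.op U) from s).1
        ⟨w, hw⟩) := by
  have h := Proj.stalkIso'_germ 𝒮 U w hw s
  exact congrArg (psi 𝒮 w L) h

/-- The map from the residue field to the field. -/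
noncomputable def jmap : (Proj 𝒮).residueField w →+* L :=
  haveI := phi_local 𝒮 w L
  IsLocalRing.ResidueField.lift (phi 𝒮 w L)

theorem jmap_residue (z : (Proj 𝒮).presheaf.stalk w) :
    jmap 𝒮 w L (((Proj 𝒮).residue w).hom z) = phi 𝒮 w L z := by
  have := phi_local 𝒮 w L
  exact IsLocalRing.ResidueField.lift_residue_apply (phi 𝒮 w L) z

theorem jmap_rho {x : Proj 𝒮} (h : w ⤳ x) (z : (Proj 𝒮).presheaf.stalk x) :
    jmap 𝒮 w L (rho h z) = phi 𝒮 w L (((Proj 𝒮).presheaf.stalkSpecializes h).hom z) :=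
  jmap_residue 𝒮 w L _

theorem jmap_rho_germ {x : Proj 𝒮} (h : w ⤳ x) (U : (Proj 𝒮).Opens) (hx : x ∈ U)
    (s : Γ(Proj 𝒮, U)) :
    jmap 𝒮 w L (rho h ((Proj 𝒮).presheaf.germ U x hx s)) =
      psi 𝒮 w L ((show (ProjectiveSpectrum.Proj.structureSheaf 𝒮).1.obj (Opposite.op U) from s).1
        ⟨w, h.mem_open U.isOpen hx⟩) := by
  rw [jmap_rho, ← phi_germ]
  congr 1
  exact congrArg (fun t => t.hom s) (TopCat.Presheaf.germ_stalkSpecializes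
    (Proj 𝒮).presheaf hx h)

theorem idl_le {x : Proj 𝒮} (h : w ⤳ x) : idl 𝒮 w ≤ idl 𝒮 x := by
  intro s hs
  by_contra hx
  exact h.mem_open (Proj.basicOpen 𝒮 s).isOpen hx hs

/-- The germ of a fraction. -/
noncomputable def ge {x : Proj 𝒮}
    (g : HomogeneousLocalization.NumDenSameDeg 𝒮 (idl 𝒮 x).primeCompl) :
    (Proj 𝒮).presheaf.stalk x :=
  (Proj 𝒮).presheaf.germ (Proj.basicOpen 𝒮 (g.den : S)) x (mem_basicOpen_den 𝒮 x g)
    (sectionInBasicOpen 𝒮 x g)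

theorem ge_surj {x : Proj 𝒮} (z : (Proj 𝒮).presheaf.stalk x) : ∃ g, ge 𝒮 g = z := by
  obtain ⟨t, rfl⟩ := (Proj.stalkIso' 𝒮 x).symm.surjective z
  obtain ⟨f, rfl⟩ := HomogeneousLocalization.mk_surjective t
  exact ⟨f, rfl⟩

theorem jmap_ge {x : Proj 𝒮} (h : w ⤳ x)
    (g : HomogeneousLocalization.NumDenSameDeg 𝒮 (idl 𝒮 x).primeCompl) :
    jmap 𝒮 w L (rho h (ge 𝒮 g)) * sL 𝒮 w L (g.den : S) = sL 𝒮 w L (g.num : S) := by
  have hden : (g.den : S) ∉ idl 𝒮 w := fun h2 => g.den_mem (idl_le 𝒮 w h h2)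
  have h1 := jmap_rho_germ 𝒮 w L h (Proj.basicOpen 𝒮 (g.den : S))
    (mem_basicOpen_den 𝒮 x g) (sectionInBasicOpen 𝒮 x g)
  have h2 := psi_mk 𝒮 w L ⟨g.deg, g.num, g.den, hden⟩
  exact (congrArg (fun t => t * sL 𝒮 w L (g.den : S)) h1).trans h2

theorem jmap_mem {x : Proj 𝒮} (h : w ⤳ x) (z : (Proj 𝒮).presheaf.stalk x) :
    jmap 𝒮 w L (rho h z) ∈ Loc (qgr 𝒮 (idl 𝒮 w)) L
      ((idl 𝒮 x).map (Ideal.Quotient.mk (idl 𝒮 w))) := by
  obtain ⟨f, rfl⟩ := ge_surj 𝒮 z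
  refine ⟨f.deg, Ideal.Quotient.mk _ (f.num : S), ⟨_, f.num.2, rfl⟩,
    Ideal.Quotient.mk _ (f.den : S), ⟨_, f.den.2, rfl⟩, ?_, jmap_ge 𝒮 w L h f⟩
  rw [Ideal.mem_quotient_iff_mem (idl_le 𝒮 w h)]
  exact f.den_mem

theorem jmap_surj {x : Proj 𝒮} (h : w ⤳ x) (f : L) (hf : f ∈ Loc (qgr 𝒮 (idl 𝒮 w)) L
      ((idl 𝒮 x).map (Ideal.Quotient.mk (idl 𝒮 w)))) :
    ∃ z : (Proj 𝒮).presheaf.stalk x, jmap 𝒮 w L (rho h z) = f := by
  obtain ⟨d, _, ⟨a, ha, rfl⟩, _, ⟨b, hb, rfl⟩, hbx, hz⟩ := hf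
  have hbx' : b ∉ idl 𝒮 x := by
    intro h2
    exact hbx (Ideal.mem_map_of_mem _ h2)
  have hbw : b ∉ idl 𝒮 w := fun h2 => hbx' (idl_le 𝒮 w h h2)
  refine ⟨ge 𝒮 ⟨d, ⟨a, ha⟩, ⟨b, hb⟩, hbx'⟩, ?_⟩
  have h2 := jmap_ge 𝒮 w L h ⟨d, ⟨a, ha⟩, ⟨b, hb⟩, hbx'⟩
  exact mul_right_cancel₀ (sL_ne 𝒮 w L hbw) (h2.trans hz.symm)

theorem jmap_const (a : A) : jmap 𝒮 w L (kA (projStr 𝒮) w a) = sL 𝒮 w L (algebraMap A S a) := by
  have hw : w ∈ Proj.basicOpen 𝒮 (1 : S) := by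
    rw [Proj.basicOpen_one]
    trivial
  have h1 : stA (projStr 𝒮) w a = (Proj 𝒮).presheaf.germ (Proj.basicOpen 𝒮 1) w hw
      ((Proj.awayToSection 𝒮 1).hom
        (HomogeneousLocalization.fromZeroRingHom 𝒮 (Submonoid.powers (1 : S))
          (algebraMap A (𝒮 0) a))) :=
    congrArg (fun t => t.hom a) (projStr_germ 𝒮 w hw)
  show jmap 𝒮 w L (((Proj 𝒮).residue w).hom (stA (projStr 𝒮) w a)) = _
  rw [jmap_residue, h1, phi_germ]
  have h2 := psi_mk 𝒮 w L ⟨0, algebraMap A (𝒮 0) a, 1, (idl 𝒮 w).primeCompl.one_mem⟩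
  have h3 : sL 𝒮 w L ((1 : 𝒮 0) : S) = 1 := map_one _
  rw [h3, mul_one] at h2
  exact h2

end Frac

theorem pf_STK : S_STK.{u} := by
  intro A S _ _ _ 𝒮 _ w L _ _ _
  refine ⟨jmap 𝒮 w L, fun x h f => ⟨?_, jmap_surj 𝒮 w L h f⟩, jmap_const 𝒮 w L⟩
  rintro ⟨s, rfl⟩
  exact jmap_mem 𝒮 w L h s

end Pool.Agent.H30.KG
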