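import Pool.Agent.H12.KG.Targets

/-!
# Project KEW, block G, row UNI: units of the stalk seen in the residue field (helper30)
-/

namespace Pool.Agent.H30.KG

open AlgebraicGeometry CategoryTheory Pool.Agent.H12.KP Pool.Agent.H12.KG

universe u

theorem pf_UNI : S_UNI.{u} := by
  intro X w x h f
  constructor
  · rintro ⟨v, rfl⟩
    have hu : IsUnit (rho h (v : X.presheaf.stalk x)) := v.isUnit.map (rho h)
    refine ⟨hu.ne_zero, ⟨_, rfl⟩, ⟨((v⁻¹ : (X.presheaf.stalk x)ˣ) : X.presheaf.stalk x), ?_⟩⟩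
    apply eq_inv_of_mul_eq_one_left
    rw [← map_mul, Units.inv_mul, map_one]
  · rintro ⟨hf, ⟨s, hs⟩, ⟨t, ht⟩⟩
    have h1 : rho h (s * t - 1) = 0 := by
      rw [map_sub, map_mul, hs, ht, map_one, mul_inv_cancel₀ hf, sub_self]
    have h2 : s * t - 1 ∈ nonunits (X.presheaf.stalk x) := by
      intro hu
      exact (hu.map (rho h)).ne_zero h1
    have h3 : IsUnit (s * t) := by
      by_contra h4
      have h5 : (s * t) - (s * t - 1) ∈ nonunits (X.presheaf.stalk x) := by
        have h6 : s * t ∈ IsLocalRing.maximalIdeal (X.presheaf.stalk x) := h4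
        have h7 : s * t - 1 ∈ IsLocalRing.maximalIdeal (X.presheaf.stalk x) := h2
        exact (IsLocalRing.maximalIdeal (X.presheaf.stalk x)).sub_mem h6 h7
      apply h5
      rw [sub_sub_cancel]
      exact isUnit_one
    have h8 : IsUnit s := isUnit_of_mul_isUnit_left h3
    obtain ⟨v, hv⟩ := h8
    exact ⟨v, by rw [hv, hs]⟩

end Pool.Agent.H30.KG
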