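import Pool.Agent.H12.KG.Targets

/-!
# Project KEW, block G, row STK, part 1: constants (helper30)
-/

namespace Pool.Agent.H30.KG

open AlgebraicGeometry CategoryTheory Pool.Agent.H12.KP Pool.Agent.H12.KG

universe u

section Const

variable {A S : Type u} [CommRing A] [CommRing S] [Algebra A S] (𝒮 : ℕ → Submodule A S)
  [GradedAlgebra 𝒮]

theorem top_res (w : Proj 𝒮) (hw : w ∈ Proj.basicOpen 𝒮 1) :
    (Proj.basicOpen 𝒮 (1 : S)).topIso.inv ≫
      ((Scheme.isoOfEq _ (Proj.basicOpen_one 𝒮)).inv).appTop ≫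
        ((Scheme.topIso (Proj 𝒮)).inv).appTop ≫ (Proj 𝒮).presheaf.germ ⊤ w trivial =
      (Proj 𝒮).presheaf.germ (Proj.basicOpen 𝒮 1) w hw := by
  have h2 : ((Scheme.topIso (Proj 𝒮)).hom).appTop ≫ ((Scheme.topIso (Proj 𝒮)).inv).appTop =
      𝟙 _ := by
    rw [← Scheme.Hom.comp_appTop, Iso.inv_hom_id, Scheme.Hom.id_appTop]
  have h3 : (Proj.basicOpen 𝒮 (1 : S)).topIso.inv ≫
      ((Scheme.isoOfEq _ (Proj.basicOpen_one 𝒮)).inv).appTop =
      (Proj 𝒮).presheaf.map (eqToHom (Proj.basicOpen_one 𝒮).symm).op ≫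
        ((Scheme.topIso (Proj 𝒮)).hom).appTop := by
    rw [Scheme.isoOfEq_inv, Scheme.homOfLE_appTop, Scheme.Opens.topIso_inv]
    show _ = _ ≫ (Scheme.Opens.ι _).appTop
    rw [Scheme.Opens.ι_appTop]
    erw [← Functor.map_comp]
  have h1 : (Proj.basicOpen 𝒮 (1 : S)).topIso.inv ≫
      ((Scheme.isoOfEq _ (Proj.basicOpen_one 𝒮)).inv).appTop ≫
        ((Scheme.topIso (Proj 𝒮)).inv).appTop =
      (Proj 𝒮).presheaf.map (eqToHom (Proj.basicOpen_one 𝒮).symm).op := by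
    rw [← Category.assoc, h3, Category.assoc, h2, Category.comp_id]
  rw [reassoc_of% h1]
  exact TopCat.Presheaf.germ_res _ _ _ _

theorem projStr_germ (w : Proj 𝒮) (hw : w ∈ Proj.basicOpen 𝒮 1) :
    (Scheme.ΓSpecIso (CommRingCat.of A)).inv ≫ (projStr 𝒮).appTop ≫
      (Proj 𝒮).presheaf.germ ⊤ w trivial =
    CommRingCat.ofHom (algebraMap A (𝒮 0)) ≫
      CommRingCat.ofHom (HomogeneousLocalization.fromZeroRingHom 𝒮 (Submonoid.powers (1 : S))) ≫
        Proj.awayToSection 𝒮 1 ≫ (Proj 𝒮).presheaf.germ (Proj.basicOpen 𝒮 1) w hw := by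
  rw [← top_res 𝒮 w hw]
  unfold projStr Proj.toSpecZero
  simp only [Scheme.Hom.comp_appTop, Category.assoc]
  rw [← Scheme.ΓSpecIso_inv_naturality_assoc, ← Scheme.ΓSpecIso_inv_naturality_assoc]
  have h4 : (Proj.basicOpenToSpec 𝒮 (1 : S)).appTop = _ := Proj.basicOpenToSpec_app_top 𝒮 1
  rw [h4]
  simp only [Category.assoc, Iso.inv_hom_id_assoc]

end Const

end Pool.Agent.H30.KG
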